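import Mathlib

set_option autoImplicit false

namespace Pool.Agent.Results.MP_4ee39a_co.Cex

open Finset

/-- `W` meets every edge. -/
def Cover {X : Type} (E : Set (Finset X)) (W : Finset X) : Prop := ∀ e ∈ E, ∃ x ∈ e, x ∈ W

/-- `d`-uniform and very well-covered. -/
def VWC {X : Type} [Fintype X] (d : ℕ) (E : Set (Finset X)) : Prop :=
  (∀ e ∈ E, #e = d) ∧ ∀ W, Minimal (Cover E) W → d * #W = Fintype.card X

/-- The clutter of `s`-jets. -/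
def Jets {X : Type} [DecidableEq X] (s : ℕ) (E : Set (Finset X)) : Set (Finset (X × Fin (s + 1))) :=
  {f | ∃ e ∈ E, ∃ i : X → Fin (s + 1), ∑ x ∈ e, (i x : ℕ) ≤ s ∧ f = e.image fun x => (x, i x)}

def E0 : Finset (Finset (Fin 6)) := {{0, 1, 2}, {0, 1, 5}, {0, 2, 4}, {1, 2, 3}}

theorem h1 : ∀ W : Finset (Fin 6), (∀ e ∈ E0, ∃ x ∈ e, x ∈ W) →
    3 * #W = 6 ∨ ∃ y ∈ W, ∀ e ∈ E0, ∃ x ∈ e, x ∈ W.erase y := by decide +kernel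

def W0 : Finset (Fin 6 × Fin 2) := {(0, 0), (1, 0), (2, 0)}

theorem h2 : ∀ e ∈ E0, ∀ i : Fin 6 → Fin 2, ∑ x ∈ e, (i x : ℕ) ≤ 1 →
    ∃ x ∈ e.image fun x => (x, i x), x ∈ W0 := by decide +kernel

theorem h3 : ∀ y ∈ W0, ∃ e ∈ E0, ∃ z, ∑ x ∈ e, ((Pi.single z 1 : Fin 6 → Fin 2) x : ℕ) ≤ 1 ∧
    ∀ x ∈ e.image fun x => (x, (Pi.single z 1 : Fin 6 → Fin 2) x), x ∈ W0 → x = y := by
  decide +kernel

theorem result : ∃ (n d s : ℕ) (E : Set (Finset (Fin n))), 1 ≤ s ∧ VWC d E ∧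
    (∀ x, ∃ e ∈ E, x ∈ e) ∧ ∃ W, Minimal (Cover (Jets s E)) W ∧ d * #W ≠ (s + 1) * n := by
  refine ⟨6, 3, 1, E0, le_rfl, ⟨(by decide +kernel : ∀ e ∈ E0, #e = 3), fun W hW => ?_⟩,
    (by decide +kernel : ∀ x, ∃ e ∈ E0, x ∈ e), W0, ⟨?_, fun V hV hle y hy => ?_⟩, by decide⟩
  · refine (h1 W hW.1).resolve_right ?_
    rintro ⟨y, hy, h⟩
    exact notMem_erase y W (hW.2 h (erase_subset y W) hy)
  · rintro _ ⟨e, he, i, hi, rfl⟩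
    exact h2 e he i hi
  · obtain ⟨e, he, z, a, b⟩ := h3 y hy
    obtain ⟨x, hx, hx'⟩ := hV _ ⟨e, he, _, a, rfl⟩
    exact b x hx (hle hx') ▸ hx'

end Pool.Agent.Results.MP_4ee39a_co.Cex
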